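import Mathlib

/-!
# Markov-modulated Poisson processes: the data
-/

set_option autoImplicit false

namespace Pool.Agent.V1164.MM

open Matrix

/-- `Q` is the generator of an irreducible continuous-time Markov chain on `Fin p` -/
structure IsIrreducibleGenerator {p : ℕ} (Q : Matrix (Fin p) (Fin p) ℝ) : Prop where
  off_diag_nonneg : ∀ i j, i ≠ j → 0 ≤ Q i j
  row_sum : ∀ i, ∑ j, Q i j = 0
  irreducible : ∀ i j, Relation.ReflTransGen (fun a b => 0 < Q a b) i j

/-- the data of a Markov-modulated Poisson process: an irreducible generator `Q` and event rates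
`lam i ≥ 0`, not all zero -/
structure IsMMPP {p : ℕ} (Q : Matrix (Fin p) (Fin p) ℝ) (lam : Fin p → ℝ) : Prop where
  generator : IsIrreducibleGenerator Q
  rate_nonneg : ∀ i, 0 ≤ lam i
  rate_ne_zero : ∃ i, lam i ≠ 0

/-- the matrix `C = Q - diag lam` -/
def C {p : ℕ} (Q : Matrix (Fin p) (Fin p) ℝ) (lam : Fin p → ℝ) : Matrix (Fin p) (Fin p) ℝ :=
  Q - Matrix.diagonal lam

/-- `π` is the stationary distribution of `Q` -/
structure IsStationary {p : ℕ} (Q : Matrix (Fin p) (Fin p) ℝ) (π : Fin p → ℝ) : Prop where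
  nonneg : ∀ i, 0 ≤ π i
  sum_one : ∑ i, π i = 1
  balance : π ᵥ* Q = 0

/-- the event-stationary distribution `α = π D / (π D 1)` -/
noncomputable def palm {p : ℕ} (lam π : Fin p → ℝ) : Fin p → ℝ :=
  fun i => π i * lam i / ∑ j, π j * lam j

/-- the probability `η e^{Ct} 1` that the first event time exceeds `t` if the background chain
starts from `η` -/
noncomputable def survival {p : ℕ} (Q : Matrix (Fin p) (Fin p) ℝ) (lam η : Fin p → ℝ) (t : ℝ) :
    ℝ :=
  η ⬝ᵥ (NormedSpace.exp (t • C Q lam) *ᵥ 1)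

end Pool.Agent.V1164.MM
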